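import Pool.Agent.H29.HMF.Stmts

/-! # Row MK2 of the board `hmf`: Minkowski for `ℤ[√2]²` -/

set_option autoImplicit false

open Matrix MeasureTheory

namespace Pool.HMF

/-- The matrix of `ℤ[√2]² → ℝ⁴` in the bases `b⁻¹`, `c⁻¹`; the last two rows are exchanged. -/
private noncomputable def mk2_M (b c : Matrix (Fin 2) (Fin 2) ℝ) : Matrix (Fin 4) (Fin 4) ℝ :=
  !![b 0 0, √2 * b 0 0, b 0 1, √2 * b 0 1;
    b 1 0, √2 * b 1 0, b 1 1, √2 * b 1 1;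
    c 1 0, -(√2 * c 1 0), c 1 1, -(√2 * c 1 1);
    c 0 0, -(√2 * c 0 0), c 0 1, -(√2 * c 0 1)]

private lemma mk2_det (b c : Matrix (Fin 2) (Fin 2) ℝ) :
    (mk2_M b c).det = 8 * b.det * c.det := by
  have hs : (√2 : ℝ) ^ 2 = 2 := Real.sq_sqrt (by norm_num)
  rw [Matrix.det_fin_two, Matrix.det_fin_two, Matrix.det_succ_row_zero]
  simp only [mk2_M, Fin.sum_univ_succ, Matrix.det_fin_three, Matrix.submatrix_apply,
    Matrix.of_apply, Matrix.cons_val', Matrix.cons_val_zero]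
  simp [Fin.succAbove, Fin.lt_def]
  linear_combination
    4 * ((b 0 0 * b 1 1 - b 0 1 * b 1 0) * (c 0 0 * c 1 1 - c 0 1 * c 1 0)) * hs

theorem mk2_thm : MK2S := by
  intro g
  obtain ⟨s, hs0, hs4, hs2⟩ : ∃ s : ℝ, 0 < s ∧ s ^ 4 = 8 ∧ s ≤ 2 := by
    have h8 : (0 : ℝ) ≤ √8 := Real.sqrt_nonneg _
    have e1 : (√8 : ℝ) ^ 2 = 8 := Real.sq_sqrt (by norm_num)
    have e2 : (√(√8) : ℝ) ^ 2 = √8 := Real.sq_sqrt h8
    refine ⟨√(√8), Real.sqrt_pos.2 (Real.sqrt_pos.2 (by norm_num)), ?_, ?_⟩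
    · calc (√(√8) : ℝ) ^ 4 = ((√(√8) : ℝ) ^ 2) ^ 2 := by ring
        _ = 8 := by rw [e2, e1]
    · have h5 : (0 : ℝ) ≤ √(√8) := Real.sqrt_nonneg _
      nlinarith [sq_nonneg ((√8 : ℝ) - 4), sq_nonneg ((√(√8) : ℝ) - 2)]
  set b : Matrix (Fin 2) (Fin 2) ℝ := ((g 0)⁻¹ : S2).1 with hb
  set c : Matrix (Fin 2) (Fin 2) ℝ := ((g 1)⁻¹ : S2).1 with hc
  have hdb : b.det = 1 := ((g 0)⁻¹ : S2).2
  have hdc : c.det = 1 := ((g 1)⁻¹ : S2).2
  have hdet : (s⁻¹ • mk2_M b c).det = 1 := by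
    rw [Matrix.det_smul, mk2_det, hdb, hdc, Fintype.card_fin, inv_pow, hs4]
    norm_num
  let G : Pool.FLT.GR 4 := ⟨s⁻¹ • mk2_M b c, hdet⟩
  obtain ⟨v, hv0, hv⟩ := Pool.FLT.mnk 4 (by norm_num) G⁻¹
  rw [inv_inv] at hv
  have hv' : ∀ i, |(mk2_M b c).mulVec (fun j => (v j : ℝ)) i| ≤ 4 := by
    intro i
    have h1 : |(s⁻¹ • mk2_M b c).mulVec (fun j => (v j : ℝ)) i| ≤ 2 := hv i
    rw [Matrix.smul_mulVec, Pi.smul_apply, smul_eq_mul, abs_mul,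
      abs_of_pos (inv_pos.2 hs0)] at h1
    have h2 : |(mk2_M b c).mulVec (fun j => (v j : ℝ)) i| =
        s * (s⁻¹ * |(mk2_M b c).mulVec (fun j => (v j : ℝ)) i|) := by
      rw [← mul_assoc, mul_inv_cancel₀ hs0.ne', one_mul]
    rw [h2]
    calc s * (s⁻¹ * |(mk2_M b c).mulVec (fun j => (v j : ℝ)) i|) ≤ s * 2 :=
          mul_le_mul_of_nonneg_left h1 hs0.le
      _ ≤ 4 := by linarith
  refine ⟨![⟨v 0, v 1⟩, ⟨v 2, v 3⟩], ?_, ?_⟩
  · intro h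
    apply hv0
    have h0 := congrFun h 0
    have h1 := congrFun h 1
    simp only [Matrix.cons_val_zero, Pi.zero_apply] at h0
    simp only [Matrix.cons_val_one, Matrix.cons_val_fin_one, Pi.zero_apply] at h1
    have a0 : v 0 = 0 := congrArg Zsqrtd.re h0
    have a1 : v 1 = 0 := congrArg Zsqrtd.im h0
    have a2 : v 2 = 0 := congrArg Zsqrtd.re h1
    have a3 : v 3 = 0 := congrArg Zsqrtd.im h1
    funext i
    fin_cases i
    · exact a0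
    · exact a1
    · exact a2
    · exact a3
  · have k0 := hv' 0
    have k1 := hv' 1
    have k2 := hv' 2
    have k3 := hv' 3
    simp [mk2_M, Matrix.mulVec, dotProduct, Fin.sum_univ_succ] at k0 k1 k2 k3
    have q0 : |b 0 0 * ((v 0 : ℝ) + √2 * v 1) + b 0 1 * ((v 2 : ℝ) + √2 * v 3)| ≤ 4 := by
      refine le_of_eq_of_le (congrArg abs ?_) k0
      ring
    have q1 : |b 1 0 * ((v 0 : ℝ) + √2 * v 1) + b 1 1 * ((v 2 : ℝ) + √2 * v 3)| ≤ 4 := by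
      refine le_of_eq_of_le (congrArg abs ?_) k1
      ring
    have q2 : |c 1 0 * ((v 0 : ℝ) + -√2 * v 1) + c 1 1 * ((v 2 : ℝ) + -√2 * v 3)| ≤ 4 := by
      refine le_of_eq_of_le (congrArg abs ?_) k2
      ring
    have q3 : |c 0 0 * ((v 0 : ℝ) + -√2 * v 1) + c 0 1 * ((v 2 : ℝ) + -√2 * v 3)| ≤ 4 := by
      refine le_of_eq_of_le (congrArg abs ?_) k3
      ring
    have key : ∀ (B : Matrix (Fin 2) (Fin 2) ℝ) (x : Fin 2 → ℝ) (j : Fin 2),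
        B.mulVec x j = B j 0 * x 0 + B j 1 * x 1 := by
      intro B x j
      rw [Matrix.mulVec, dotProduct, Fin.sum_univ_two]
    intro i j
    rw [cv, key]
    fin_cases i <;> fin_cases j
    · exact q0
    · exact q1
    · exact q3
    · exact q2

end Pool.HMF
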